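import Pool.Agent.Y63.NV.Stm5
import Pool.Agent.Y63.KR.Basic
import Pool.Agent.Y286.NV.Fin
import Pool.Agent.Y930.NV.Cen

/-!
# Project NV, part 5, KFIN: from values of central characters to blocks (helper171)
-/

set_option autoImplicit false

open scoped Classical

noncomputable section

namespace Pool.Agent.Y171.NV

open Pool.Agent.Y63.NV
open Pool.Agent.Y63.AWC (IsIrreducibleCharacter irr_comp)
open Pool.Agent.Y63.KR (IsPChain chainStabilizer alternatingSum conjSub chainSetoid conjSub_one
  conjSub_mul orbit_sum ncard_conj chainStabilizer_conj mem_chainStabilizer)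
open Pool.Agent.Y286.NV (exists_sep centralValue_comp irr_class)
open Pool.Agent.Helper884.IC (IsIrrChar irr_finite)

/-- the alternating sum as a weighted sum over all chains, for conjugation invariant functions -/
theorem card_mul_alt {p : ℕ} {G : Type} [Group G] [Finite G] (f : Subgroup G → ℤ)
    (hf : ∀ (g : G) (H : Subgroup G), f (conjSub g H) = f H) :
    (Nat.card G : ℤ) * alternatingSum p G f =
      ∑ᶠ σ : {σ : Set (Subgroup G) // IsPChain p σ},
        (-1) ^ σ.1.ncard * ((Nat.card (chainStabilizer σ.1) : ℤ) * f (chainStabilizer σ.1)) := by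
  have hfin : Finite {σ : Set (Subgroup G) // IsPChain p σ} := inferInstance
  have : Fintype {σ : Set (Subgroup G) // IsPChain p σ} := Fintype.ofFinite _
  letI : MulAction G {σ : Set (Subgroup G) // IsPChain p σ} :=
    { smul := fun g σ => ⟨conjSub g '' σ.1, σ.2.conj g⟩
      one_smul := fun σ => by
        apply Subtype.ext
        change conjSub (1 : G) '' σ.1 = σ.1
        have : (conjSub (1 : G)) = id := funext conjSub_one
        rw [this, Set.image_id]
      mul_smul := fun g h σ => by
        apply Subtype.ext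
        change conjSub (g * h) '' σ.1 = conjSub g '' (conjSub h '' σ.1)
        rw [← Set.image_comp]
        congr 1
        exact funext fun P => conjSub_mul g h P }
  have hsm : ∀ (g : G) (σ : {σ : Set (Subgroup G) // IsPChain p σ}),
      (g • σ).1 = conjSub g '' σ.1 := fun _ _ => rfl
  have h := orbit_sum (G := G) (chainSetoid p G) (by
    intro σ τ
    change (∃ g : G, τ.1 = conjSub g '' σ.1) ↔ _
    constructor
    · rintro ⟨g, hg⟩
      exact ⟨g, Subtype.ext (by rw [hsm, hg])⟩
    · rintro ⟨g, hg⟩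
      exact ⟨g, by rw [← hg, hsm]⟩)
    (fun σ => (-1) ^ σ.1.ncard * f (chainStabilizer σ.1)) (by
      rintro σ τ ⟨g, hg⟩
      change (-1) ^ σ.1.ncard * f (chainStabilizer σ.1) =
        (-1) ^ τ.1.ncard * f (chainStabilizer τ.1)
      rw [hg, ncard_conj, chainStabilizer_conj, hf])
  unfold alternatingSum
  rw [h, finsum_eq_sum_of_fintype]
  refine Finset.sum_congr rfl fun σ _ => ?_
  have hst : Nat.card (MulAction.stabilizer G σ) = Nat.card (chainStabilizer σ.1) := by
    refine Nat.card_congr (Equiv.subtypeEquivRight fun g => ?_)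
    rw [MulAction.mem_stabilizer_iff, Subtype.ext_iff, hsm, mem_chainStabilizer]
    constructor
    · intro h3 P hP
      have hgP : conjSub g P ∈ σ.1 := by
        rw [← h3]
        exact ⟨P, hP, rfl⟩
      have hcard : Nat.card (conjSub g P) = Nat.card P :=
        Nat.card_congr (Subgroup.equivMapOfInjective _ _ (MulAut.conj g).injective).toEquiv.symm
      rcases σ.2.chain.total hgP hP with h4 | h4
      · exact Subgroup.eq_of_le_of_card_ge h4 hcard.ge
      · exact (Subgroup.eq_of_le_of_card_ge h4 hcard.le).symm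
    · intro h3
      ext P
      constructor
      · rintro ⟨Q, hQ, rfl⟩
        rw [h3 Q hQ]
        exact hQ
      · intro hP
        exact ⟨P, hP, h3 P hP⟩
  rw [hst]
  ring

/-- counting by the values of a map -/
theorem card_fib {X R : Type} [Finite X] (r : X → R) (S : Finset R) (hS : ∀ x, r x ∈ S)
    (P : R → Prop) : Nat.card {x // P (r x)} =
      ∑ β ∈ S, if P β then Nat.card {x // r x = β} else 0 := by
  have : Fintype X := Fintype.ofFinite X
  rw [Nat.card_eq_fintype_card, Fintype.card_subtype,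
    Finset.card_eq_sum_card_fiberwise (f := r) (t := S) (fun x _ => hS x)]
  refine Finset.sum_congr rfl fun β _ => ?_
  by_cases h : P β
  · rw [if_pos h, Nat.card_eq_fintype_card, Fintype.card_subtype]
    congr 1
    ext x
    simp only [Finset.mem_filter, Finset.mem_univ, true_and]
    constructor
    · exact fun h' => h'.2
    · rintro rfl
      exact ⟨h, rfl⟩
  · rw [if_neg h, Finset.card_eq_zero, Finset.filter_eq_empty_iff]
    rintro x hx rfl
    exact h (Finset.mem_filter.1 hx).2

section

variable {G F : Type} [Group G] [Field F]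

/-- the class functions -/
def CFm (G F : Type) [Group G] [Field F] : Submodule F (G → F) where
  carrier := {f | IsClassFun f}
  zero_mem' := fun _ _ => rfl
  add_mem' := fun {a b} ha hb g x => by
    rw [Pi.add_apply, Pi.add_apply, ha g x, hb g x]
  smul_mem' := fun c {a} ha g x => by
    rw [Pi.smul_apply, Pi.smul_apply, ha g x]

/-- the functional of a character of a subgroup -/
def mu [Finite G] (red : integralClosure ℤ ℂ →+* F) (H : Subgroup G) (χ : H → ℂ) :
    CFm G F →ₗ[F] F where
  toFun z := centralValue red χ (fun x => z.1 x)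
  map_add' a b := by
    unfold centralValue
    rw [← finsum_add_distrib (Set.toFinite _) (Set.toFinite _)]
    refine finsum_congr fun C => ?_
    rw [← add_mul]
    rfl
  map_smul' c a := by
    unfold centralValue
    rw [RingHom.id_apply, smul_finsum' c (Set.toFinite _)]
    refine finsum_congr fun C => ?_
    rw [smul_eq_mul, ← mul_assoc]
    rfl

lemma mu_apply [Finite G] (red : integralClosure ℤ ℂ →+* F) (H : Subgroup G) (χ : H → ℂ)
    (f : CFm G F) : mu red H χ f = centralValue red χ (fun x => f.1 x) := rfl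

/-- the functional of a character of the group -/
def mud [Finite G] (red : integralClosure ℤ ℂ →+* F) (χ : G → ℂ) : CFm G F →ₗ[F] F where
  toFun z := centralValue red χ z.1
  map_add' a b := by
    unfold centralValue
    rw [← finsum_add_distrib (Set.toFinite _) (Set.toFinite _)]
    refine finsum_congr fun C => ?_
    rw [← add_mul]
    rfl
  map_smul' c a := by
    unfold centralValue
    rw [RingHom.id_apply, smul_finsum' c (Set.toFinite _)]
    refine finsum_congr fun C => ?_
    rw [smul_eq_mul, ← mul_assoc]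
    rfl

lemma mud_apply [Finite G] (red : integralClosure ℤ ℂ →+* F) (χ : G → ℂ) (f : CFm G F) :
    mud red χ f = centralValue red χ f.1 := rfl

/-- the functional of a block -/
def blk {B : (G → F) → F} (hB : IsBlock B) : CFm G F →ₗ[F] F where
  toFun z := B z.1
  map_add' a b := hB.add _ _ a.2 b.2
  map_smul' c a := hB.smul c _ a.2

lemma irr_fin (J : Type) [Group J] [Finite J] :
    Finite {χ : J → ℂ // IsIrreducibleCharacter χ} := by
  have : Fintype J := Fintype.ofFinite _
  exact (irr_finite (G := J)).to_subtype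

lemma wt_fin (p : ℕ) (J : Type) [Group J] [Finite J] :
    Finite {χ : J → ℂ // IsWt p (⊥ : Subgroup J) χ} := by
  have := irr_fin J
  exact Finite.of_injective (fun χ : {χ : J → ℂ // IsWt p (⊥ : Subgroup J) χ} =>
    (⟨χ.1, χ.2.irr⟩ : {χ : J → ℂ // IsIrreducibleCharacter χ}))
    (fun a b h => Subtype.ext (congrArg (fun t => t.1) h))

lemma card_I [Finite G] (red : integralClosure ℤ ℂ →+* F) (H : Subgroup G) (B : (G → F) → F)
    (β : CFm G F → F) (hβ : ∀ f : CFm G F, B f.1 = β f) :
    Nat.card {χ : {χ : H → ℂ // IsIrreducibleCharacter χ} // (fun f => mu red H χ.1 f) = β} =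
      numIrrInd red H B := by
  unfold numIrrInd
  refine Nat.card_congr
    { toFun := fun χ => ⟨χ.1.1, χ.1.2, ?_⟩
      invFun := fun χ => ⟨⟨χ.1, χ.2.1⟩, ?_⟩
      left_inv := fun χ => rfl
      right_inv := fun χ => rfl }
  · intro f hf
    have h1 := congrFun χ.2 ⟨f, hf⟩
    rw [← hβ] at h1
    exact h1
  · funext f
    rw [← hβ]
    exact χ.2.2 f.1 f.2

lemma card_D [Finite G] (p : ℕ) (red : integralClosure ℤ ℂ →+* F) (B : (G → F) → F)
    (β : CFm G F → F) (hβ : ∀ f : CFm G F, B f.1 = β f) :
    Nat.card {χ : {χ : G → ℂ // IsWt p (⊥ : Subgroup G) χ} // (fun f => mud red χ.1 f) = β} =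
      numDzBlock p red B := by
  unfold numDzBlock
  refine Nat.card_congr
    { toFun := fun χ => ⟨χ.1.1, χ.1.2, ?_⟩
      invFun := fun χ => ⟨⟨χ.1, χ.2.1⟩, ?_⟩
      left_inv := fun χ => rfl
      right_inv := fun χ => rfl }
  · intro f hf
    have h1 := congrFun χ.2 ⟨f, hf⟩
    rw [← hβ] at h1
    exact h1
  · funext f
    rw [← hβ]
    exact χ.2.2 f.1 f.2

lemma card_K [Finite G] (red : integralClosure ℤ ℂ →+* F) (H : Subgroup G) (z : CFm G F)
    (c : F) : Knum red (fun x : H => z.1 x) c =
      Nat.card {χ : {χ : H → ℂ // IsIrreducibleCharacter χ} // mu red H χ.1 z = c} := by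
  unfold Knum
  exact Nat.card_congr
    { toFun := fun χ => ⟨⟨χ.1, χ.2.1⟩, χ.2.2⟩
      invFun := fun χ => ⟨χ.1.1, χ.1.2, χ.2⟩
      left_inv := fun χ => rfl
      right_inv := fun χ => rfl }

lemma card_W [Finite G] (p : ℕ) (red : integralClosure ℤ ℂ →+* F) (z : CFm G F)
    (c : F) : Nw p red (⊥ : Subgroup G) z.1 c =
      Nat.card {χ : {χ : G → ℂ // IsWt p (⊥ : Subgroup G) χ} // mud red χ.1 z = c} := by
  unfold Nw
  exact Nat.card_congr
    { toFun := fun χ => ⟨⟨χ.1, χ.2.1⟩, χ.2.2⟩
      invFun := fun χ => ⟨χ.1.1, χ.1.2, χ.2⟩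
      left_inv := fun χ => rfl
      right_inv := fun χ => rfl }

/-- invariance under conjugation -/
lemma numIrrInd_conj [Finite G] (red : integralClosure ℤ ℂ →+* F) (B : (G → F) → F) (g : G)
    (H : Subgroup G) : numIrrInd red (conjSub g H) B = numIrrInd red H B := by
  let e : H ≃* conjSub g H := (MulAut.conj g).subgroupMap H
  have he : ∀ x : H, ((e x : conjSub g H) : G) = g * x * g⁻¹ := fun x => rfl
  have hval : ∀ χ : conjSub g H → ℂ, IsIrreducibleCharacter χ → ∀ z : G → F, IsClassFun z →
      centralValue red (fun x => χ (e x)) (fun x : H => z x) =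
        centralValue red χ (fun x => z x) := by
    intro χ hχ z hz
    have h1 := centralValue_comp red e χ (irr_class hχ) (fun x => z x)
      (fun a x => hz a x)
    rw [← h1]
    congr 1
    funext x
    show z x = z (e x : conjSub g H)
    rw [he, hz]
  unfold numIrrInd
  refine Nat.card_congr
    { toFun := fun χ => ⟨fun x => χ.1 (e x), irr_comp e χ.2.1, ?_⟩
      invFun := fun χ => ⟨fun x => χ.1 (e.symm x), irr_comp e.symm χ.2.1, ?_⟩
      left_inv := ?_
      right_inv := ?_ }
  · intro z hz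
    rw [hval χ.1 χ.2.1 z hz]
    exact χ.2.2 z hz
  · intro z hz
    have h1 := hval (fun x => χ.1 (e.symm x)) (irr_comp e.symm χ.2.1) z hz
    have h2 : (fun x => (fun x => χ.1 (e.symm x)) (e x)) = χ.1 := by
      funext x
      show χ.1 (e.symm (e x)) = χ.1 x
      rw [e.symm_apply_apply]
    rw [h2] at h1
    rw [← h1]
    exact χ.2.2 z hz
  · intro χ
    apply Subtype.ext
    funext x
    show χ.1 (e (e.symm x)) = χ.1 x
    rw [e.apply_symm_apply]
  · intro χ
    apply Subtype.ext
    funext x
    show χ.1 (e.symm (e x)) = χ.1 x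
    rw [e.symm_apply_apply]

/-- the weighted equality for `B` -/
def EqB (p : ℕ) (red : integralClosure ℤ ℂ →+* F) (B : (G → F) → F) : Prop :=
  ∑ᶠ σ : {σ : Set (Subgroup G) // IsPChain p σ}, (-1) ^ σ.1.ncard *
    ((Nat.card (chainStabilizer σ.1) : ℤ) * (numIrrInd red (chainStabilizer σ.1) B : ℤ)) =
      (Nat.card G : ℤ) * numDzBlock p red B

lemma eqB_iff [Finite G] (p : ℕ) (red : integralClosure ℤ ℂ →+* F) (B : (G → F) → F) :
    alternatingSum p G (fun H => (numIrrInd red H B : ℤ)) = numDzBlock p red B ↔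
      EqB p red B := by
  unfold EqB
  rw [← card_mul_alt (fun H => (numIrrInd red H B : ℤ))
    (fun g H => by rw [numIrrInd_conj])]
  have hpos : (Nat.card G : ℤ) ≠ 0 := by exact_mod_cast Nat.card_pos.ne'
  exact (mul_right_inj' hpos).symm

/-- the identity for the values of the central characters -/
def Idz (p : ℕ) (red : integralClosure ℤ ℂ →+* F) (z : G → F) (c : F) : Prop :=
  (∑ᶠ σ : {σ : Set (Subgroup G) // IsPChain p σ}, (-1) ^ σ.1.ncard *
    ((Nat.card (chainStabilizer σ.1) : ℤ) *
      Knum red (fun x : chainStabilizer σ.1 => z x) c)) =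
  (Nat.card G : ℤ) * Nw p red (⊥ : Subgroup G) z c

theorem fwd [Finite G] (p : ℕ) (red : integralClosure ℤ ℂ →+* F)
    (h1 : ∀ (σ : Set (Subgroup G)) (χ : chainStabilizer σ → ℂ), IsPChain p σ →
      IsIrreducibleCharacter χ → EqB p red (fun f : G → F => centralValue red χ (fun x => f x)))
    (h2 : ∀ χ : G → ℂ, IsWt p (⊥ : Subgroup G) χ → EqB p red (centralValue red χ))
    (z : G → F) (c : F) (hz : IsClassFun z) : Idz p red z c := by
  have hΩ : Fintype {σ : Set (Subgroup G) // IsPChain p σ} := Fintype.ofFinite _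
  have hX : ∀ H : Subgroup G, Finite {χ : H → ℂ // IsIrreducibleCharacter χ} := fun H => irr_fin H
  have hY : Finite {χ : G → ℂ // IsWt p (⊥ : Subgroup G) χ} := wt_fin p G
  have hfX : ∀ H : Subgroup G, Fintype {χ : H → ℂ // IsIrreducibleCharacter χ} :=
    fun H => Fintype.ofFinite _
  have hfY : Fintype {χ : G → ℂ // IsWt p (⊥ : Subgroup G) χ} := Fintype.ofFinite _
  let rX : ∀ H : Subgroup G, {χ : H → ℂ // IsIrreducibleCharacter χ} → (CFm G F → F) :=
    fun H χ => fun f => mu red H χ.1 f
  let rY : {χ : G → ℂ // IsWt p (⊥ : Subgroup G) χ} → (CFm G F → F) :=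
    fun χ => fun f => mud red χ.1 f
  let S : Finset (CFm G F → F) :=
    (Finset.univ : Finset {σ : Set (Subgroup G) // IsPChain p σ}).biUnion
      (fun σ => Finset.univ.image (rX (chainStabilizer σ.1))) ∪ Finset.univ.image rY
  have hSX : ∀ (σ : {σ : Set (Subgroup G) // IsPChain p σ}) χ,
      rX (chainStabilizer σ.1) χ ∈ S := fun σ χ =>
    Finset.mem_union_left _ (Finset.mem_biUnion.2 ⟨σ, Finset.mem_univ _,
      Finset.mem_image_of_mem _ (Finset.mem_univ _)⟩)
  have hSY : ∀ χ, rY χ ∈ S := fun χ =>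
    Finset.mem_union_right _ (Finset.mem_image_of_mem _ (Finset.mem_univ _))
  have key : ∀ β ∈ S, ∑ σ : {σ : Set (Subgroup G) // IsPChain p σ}, (-1) ^ σ.1.ncard *
      ((Nat.card (chainStabilizer σ.1) : ℤ) *
        (Nat.card {χ // rX (chainStabilizer σ.1) χ = β} : ℤ)) =
        (Nat.card G : ℤ) * (Nat.card {χ // rY χ = β} : ℤ) := by
    intro β hβ
    obtain ⟨B, hB, hBβ⟩ : ∃ B : (G → F) → F, EqB p red B ∧ ∀ f : CFm G F, B f.1 = β f := by
      rcases Finset.mem_union.1 hβ with h | h
      · obtain ⟨σ, -, h⟩ := Finset.mem_biUnion.1 h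
        obtain ⟨χ, -, rfl⟩ := Finset.mem_image.1 h
        exact ⟨_, h1 σ.1 χ.1 σ.2 χ.2, fun f => rfl⟩
      · obtain ⟨χ, -, rfl⟩ := Finset.mem_image.1 h
        exact ⟨_, h2 χ.1 χ.2, fun f => rfl⟩
    have e1 := hB
    unfold EqB at e1
    rw [finsum_eq_sum_of_fintype] at e1
    rw [card_D p red B β hBβ, ← e1]
    refine Finset.sum_congr rfl fun σ _ => ?_
    rw [card_I red (chainStabilizer σ.1) B β hBβ]
  unfold Idz
  rw [finsum_eq_sum_of_fintype]
  have e2 : ∀ σ : {σ : Set (Subgroup G) // IsPChain p σ},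
      ((-1) ^ σ.1.ncard * ((Nat.card (chainStabilizer σ.1) : ℤ) *
        Knum red (fun x : chainStabilizer σ.1 => z x) c) : ℤ) =
      ∑ β ∈ S, if β ⟨z, hz⟩ = c then (-1) ^ σ.1.ncard *
      ((Nat.card (chainStabilizer σ.1) : ℤ) *
        (Nat.card {χ // rX (chainStabilizer σ.1) χ = β} : ℤ)) else 0 := by
    intro σ
    have e3 := card_K red (chainStabilizer σ.1) ⟨z, hz⟩ c
    have e4 := card_fib (rX (chainStabilizer σ.1)) S (hSX σ) (fun β => β ⟨z, hz⟩ = c)
    have e5 : Knum red (fun x : chainStabilizer σ.1 => z x) c =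
        ∑ β ∈ S, if β ⟨z, hz⟩ = c then Nat.card {χ // rX (chainStabilizer σ.1) χ = β} else 0 :=
      e3.trans e4
    rw [e5, Nat.cast_sum, Finset.mul_sum, Finset.mul_sum]
    refine Finset.sum_congr rfl fun β _ => ?_
    by_cases h : β ⟨z, hz⟩ = c
    · rw [if_pos h, if_pos h]
    · rw [if_neg h, if_neg h, Nat.cast_zero, mul_zero, mul_zero]
  have e6 : Nw p red (⊥ : Subgroup G) z c =
      ∑ β ∈ S, if β ⟨z, hz⟩ = c then Nat.card {χ // rY χ = β} else 0 :=
    (card_W p red ⟨z, hz⟩ c).trans (card_fib rY S hSY (fun β => β ⟨z, hz⟩ = c))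
  rw [Finset.sum_congr rfl fun σ _ => e2 σ, Finset.sum_comm, e6, Nat.cast_sum, Finset.mul_sum]
  refine Finset.sum_congr rfl fun β hβ => ?_
  by_cases h : β ⟨z, hz⟩ = c
  · simp only [if_pos h]
    exact key β hβ
  · simp only [if_neg h]
    rw [Finset.sum_const_zero, Nat.cast_zero, mul_zero]

theorem bwd [Finite G] [Infinite F] (p : ℕ) (red : integralClosure ℤ ℂ →+* F)
    (h : ∀ (z : G → F) (c : F), IsClassFun z → Idz p red z c) (B : (G → F) → F)
    (b : CFm G F →ₗ[F] F) (hb : ∀ f : CFm G F, B f.1 = b f) : EqB p red B := by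
  have hX : ∀ H : Subgroup G, Finite {χ : H → ℂ // IsIrreducibleCharacter χ} := fun H => irr_fin H
  have hY : Finite {χ : G → ℂ // IsWt p (⊥ : Subgroup G) χ} := wt_fin p G
  let I : Type := {χ : G → ℂ // IsWt p (⊥ : Subgroup G) χ} ⊕
    (Σ H : Subgroup G, {χ : H → ℂ // IsIrreducibleCharacter χ})
  let μ : I → (CFm G F →ₗ[F] F) := fun i =>
    Sum.elim (fun χ => mud red χ.1) (fun q => mu red q.1 q.2.1) i
  have hI : Finite I := inferInstance
  obtain ⟨z, hz⟩ := exists_sep μ b
  have h1 := h z.1 (b z) z.2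
  have e1 : ∀ H : Subgroup G, Knum red (fun x : H => z.1 x) (b z) = numIrrInd red H B := by
    intro H
    rw [card_K red H z, ← card_I red H B b hb]
    refine Nat.card_congr (Equiv.subtypeEquivRight fun χ => ?_)
    constructor
    · intro h2
      have h3 : mu red H χ.1 = b := hz (Sum.inr ⟨H, χ⟩) h2
      rw [h3]
    · intro h2
      exact congrFun h2 z
  have e2 : Nw p red (⊥ : Subgroup G) z.1 (b z) = numDzBlock p red B := by
    rw [card_W p red z, ← card_D p red B b hb]
    refine Nat.card_congr (Equiv.subtypeEquivRight fun χ => ?_)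
    constructor
    · intro h2
      have h3 : mud red χ.1 = b := hz (Sum.inl χ) h2
      rw [h3]
    · intro h2
      exact congrFun h2 z
  unfold Idz at h1
  unfold EqB
  rw [← e2, ← h1]
  refine finsum_congr fun σ => ?_
  rw [e1]

theorem bwd' [Finite G] [Infinite F] (p : ℕ) (red : integralClosure ℤ ℂ →+* F)
    (h : ∀ (z : G → F) (c : F), IsClassFun z → Idz p red z c) (B : (G → F) → F) :
    EqB p red B := by
  by_cases hex : ∃ b : CFm G F →ₗ[F] F, ∀ f : CFm G F, B f.1 = b f
  · obtain ⟨b, hb⟩ := hex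
    exact bwd p red h B b hb
  · have e1 : ∀ H : Subgroup G, numIrrInd red H B = 0 := by
      intro H
      unfold numIrrInd
      have : IsEmpty {χ : H → ℂ // IsIrreducibleCharacter χ ∧
          ∀ f : G → F, IsClassFun f → centralValue red χ (fun x => f x) = B f} :=
        ⟨fun χ => hex ⟨mu red H χ.1, fun f => (χ.2.2 f.1 f.2).symm⟩⟩
      exact Nat.card_of_isEmpty
    have e2 : numDzBlock p red B = 0 := by
      unfold numDzBlock
      have : IsEmpty {χ : G → ℂ // IsWt p (⊥ : Subgroup G) χ ∧
          ∀ f : G → F, IsClassFun f → centralValue red χ f = B f} :=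
        ⟨fun χ => hex ⟨mud red χ.1, fun f => (χ.2.2 f.1 f.2).symm⟩⟩
      exact Nat.card_of_isEmpty
    unfold EqB
    rw [e2, Nat.cast_zero, mul_zero]
    have e3 : ∀ σ : {σ : Set (Subgroup G) // IsPChain p σ}, ((-1) ^ σ.1.ncard *
        ((Nat.card (chainStabilizer σ.1) : ℤ) *
          (numIrrInd red (chainStabilizer σ.1) B : ℤ)) : ℤ) = 0 := by
      intro σ
      rw [e1, Nat.cast_zero, mul_zero, mul_zero]
    rw [finsum_congr e3, finsum_zero]

end

theorem kfin' : S_KFIN' := by
  intro p _ F _ _ _ red G _ _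
  have hInf : Infinite F := inferInstance
  constructor
  · intro hK z c hz
    exact fwd p red (fun σ χ _ _ => (eqB_iff p red _).1 (hK _))
      (fun χ _ => (eqB_iff p red _).1 (hK _)) z c hz
  · intro hid B
    exact (eqB_iff p red B).2 (bwd' p red hid B)

theorem kfin (h : S_KBLK) : S_KFIN := by
  intro p _ F _ _ _ red G _ _
  have hInf : Infinite F := inferInstance
  constructor
  · intro hK z c hz
    exact fwd p red (fun σ χ hσ hχ => (eqB_iff p red _).1 (hK _ (h p F red G σ χ hσ hχ)))
      (fun χ hχ => (eqB_iff p red _).1 (hK _ (Pool.Agent.Y930.NV.cvh F red G χ hχ.irr))) z c hz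
  · intro hid B hB
    exact (eqB_iff p red B).2 (bwd p red hid B (blk hB) (fun f => rfl))

end Pool.Agent.Y171.NV
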